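import Mathlib
import Pool.Agent.Helper542.RK.Defs

set_option autoImplicit false

namespace Pool.Agent.Helper699.RK

open Finset Pool.Agent.Helper542.RK

variable (P : Par)

lemma L_pos : ∀ i, 0 < P.L i := by
  intro i
  induction i with
  | zero => exact P.hL0
  | succ i ih => rw [P.hL]; exact Nat.mul_pos ih (by have := P.hN i; omega)

lemma L_dvd {i j : ℕ} (h : i ≤ j) : P.L i ∣ P.L j := by
  induction j, h using Nat.le_induction with
  | base => exact dvd_rfl
  | succ j _ ih => rw [P.hL]; exact Dvd.dvd.mul_right ih _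

lemma L_lt (i : ℕ) : i < P.L i := by
  induction i with
  | zero => exact P.hL0
  | succ i ih =>
    rw [P.hL]
    have := P.hN i
    nlinarith

/-- right end of the class `i` window of `t` -/
def rr (t i : ℕ) : ℕ := (t / P.L i + 1) * P.L i
/-- left end of the class `i` window of `t` -/
def ll (t i : ℕ) : ℕ := (t / P.L i) * P.L i

lemma lt_rr (t i : ℕ) : t < rr P t i := by
  unfold rr; rw [Nat.add_mul, one_mul]; exact Nat.lt_div_mul_add (L_pos P i)

lemma ll_le (t i : ℕ) : ll P t i ≤ t := Nat.div_mul_le_self _ _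

lemma rr_eq (t i : ℕ) : rr P t i = ll P t i + P.L i := by unfold rr ll; ring

lemma dvd_rr (t i : ℕ) : P.L i ∣ rr P t i := Dvd.intro_left _ rfl
lemma dvd_ll (t i : ℕ) : P.L i ∣ ll P t i := Dvd.intro_left _ rfl

lemma rr_le_of {t i y : ℕ} (h : P.L i ∣ y) (hy : t < y) : rr P t i ≤ y := by
  obtain ⟨c, rfl⟩ := h
  unfold rr
  rw [Nat.mul_comm (P.L i) c] at hy ⊢
  apply Nat.mul_le_mul_right
  exact (Nat.div_lt_iff_lt_mul (L_pos P i)).2 hy

lemma le_ll_of {t i y : ℕ} (h : P.L i ∣ y) (hy : y ≤ t) : y ≤ ll P t i := by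
  obtain ⟨c, rfl⟩ := h
  unfold ll
  rw [Nat.mul_comm (P.L i) c] at hy ⊢
  apply Nat.mul_le_mul_right
  exact (Nat.le_div_iff_mul_le (L_pos P i)).2 hy

lemma rr_mono (t : ℕ) {i j : ℕ} (h : i ≤ j) : rr P t i ≤ rr P t j :=
  rr_le_of P ((L_dvd P h).trans (dvd_rr P t j)) (lt_rr P t j)

lemma ll_anti (t : ℕ) {i j : ℕ} (h : i ≤ j) : ll P t j ≤ ll P t i :=
  le_ll_of P ((L_dvd P h).trans (dvd_ll P t j)) (ll_le P t j)

/-- elements of the class `i` window starting at a multiple `y` of `L i` -/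
lemma div_of_mem {i y x : ℕ} (h : P.L i ∣ y) (h1 : y ≤ x) (h2 : x < y + P.L i) :
    x / P.L i = y / P.L i := by
  obtain ⟨c, rfl⟩ := h
  rw [Nat.mul_div_cancel_left _ (L_pos P i)]
  apply Nat.div_eq_of_lt_le
  · rw [Nat.mul_comm]; exact h1
  · rw [Nat.add_mul, one_mul, Nat.mul_comm c]; exact h2

lemma div_of_mem' {i t x : ℕ} (h1 : ll P t i ≤ x) (h2 : x < rr P t i) :
    x / P.L i = t / P.L i := by
  rw [rr_eq] at h2
  rw [div_of_mem P (dvd_ll P t i) h1 h2]
  unfold ll; rw [Nat.mul_div_cancel _ (L_pos P i)]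

lemma ll_of_dvd {x i y : ℕ} (h : P.L i ∣ y) (hx : y ≤ x) : y ≤ ll P x i := le_ll_of P h hx

def Zone (T : Finset ℕ) : Prop :=
  ∃ u q t t', t ∈ T ∧ t' ∈ T ∧ t ≠ t' ∧ inZone P u q t ∧ inZone P u q t' ∧
    (∃ t1 ∈ T, t1 < q * P.L (u+1)) ∧ (∃ t2 ∈ T, (q+1) * P.L (u+1) ≤ t2)

def Main (T : Finset ℕ) : Prop :=
  ∃ c a b, 1 ≤ c ∧ a < b ∧ P.L 0 ∣ a ∧ P.L 0 ∣ b ∧ (∃ t1 ∈ T, t1 < a) ∧
    (∃ t2 ∈ T, b ≤ t2) ∧ (∀ x, a ≤ x → x < b → x / P.L c = a / P.L c) ∧
    P.k ≤ (T.filter (fun x => a ≤ x ∧ x < b)).card ∧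
    (∀ x, a ≤ x → x < b → ∀ j, j+1 < c → ∃ y0, P.L j ∣ y0 ∧ a ≤ y0 ∧
      y0 + P.Z j * P.L j ≤ b ∧
      ∀ y, y0 ≤ y → y < y0 + P.Z j * P.L j → y / P.L (j+1) = x / P.L (j+1))

/-- kids in a full window -/
lemma full_window {a b x j : ℕ} (ha : a ≤ ll P x (j+1)) (hb : rr P x (j+1) ≤ b) :
    ∃ y0, P.L j ∣ y0 ∧ a ≤ y0 ∧ y0 + P.Z j * P.L j ≤ b ∧
      ∀ y, y0 ≤ y → y < y0 + P.Z j * P.L j → y / P.L (j+1) = x / P.L (j+1) := by
  have hZL : P.Z j * P.L j ≤ P.L (j+1) := by
    rw [P.hL, Nat.mul_comm (P.L j)]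
    exact Nat.mul_le_mul_right _ (P.hZN j)
  refine ⟨ll P x (j+1), (L_dvd P (Nat.le_succ j)).trans (dvd_ll P x (j+1)), ha, ?_, ?_⟩
  · rw [rr_eq] at hb; omega
  · intro y h1 h2
    exact div_of_mem' P h1 (by rw [rr_eq]; omega)

lemma card_leaf {T : Finset ℕ} {a : ℕ} (h : ∀ x ∈ T, a ≤ x ∧ x < a + P.L 0) :
    T.card ≤ P.L 0 := by
  have : T ⊆ Finset.Ico a (a + P.L 0) := by
    intro x hx; rw [Finset.mem_Ico]; exact h x hx
  calc T.card ≤ (Finset.Ico a (a + P.L 0)).card := Finset.card_le_card this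
    _ = P.L 0 := by rw [Nat.card_Ico]; omega

lemma L0_two : 2 ≤ P.L 0 := Nat.le_of_dvd P.hL0 P.heven

lemma two_of_card {T : Finset ℕ} (h : 2 ≤ T.card) : ∃ t ∈ T, ∃ t' ∈ T, t ≠ t' := by
  obtain ⟨a, ha, b, hb, hab⟩ := Finset.one_lt_card.1 h
  exact ⟨a, ha, b, hb, hab⟩

/-- LEFT case -/
lemma geo_left {T : Finset ℕ} {t1 t2 m : ℕ} (ht1 : t1 ∈ T) (hmin : ∀ x ∈ T, t1 ≤ x)
    (ht2 : t2 ∈ T) (hm : rr P t1 m ≤ t2)
    (hcard : P.k + P.L 0 ≤ (T.filter (fun x => x < rr P t1 m)).card) :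
    Zone P T ∨ Main P T := by
  classical
  have hk := P.hk
  have hL0 := P.hL0
  have hL2 := L0_two P
  -- tokens in the leaf
  have hleaf : (T.filter (fun x => x < rr P t1 0)).card ≤ P.L 0 := by
    apply card_leaf P (a := ll P t1 0)
    intro x hx
    rw [Finset.mem_filter] at hx
    refine ⟨(ll_le P t1 0).trans (hmin x hx.1), ?_⟩
    rw [← rr_eq]; exact hx.2
  have h0 : rr P t1 0 < rr P t1 m := by
    rcases Nat.lt_or_ge (rr P t1 0) (rr P t1 m) with h | h
    · exact h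
    · exfalso
      have h' : rr P t1 m = rr P t1 0 := le_antisymm h (rr_mono P t1 (Nat.zero_le m))
      rw [h'] at hcard
      omega
  -- c'
  obtain ⟨c', hc'm, hc'1, hc'2⟩ : ∃ c', c' < m ∧ rr P t1 c' < rr P t1 m ∧
      rr P t1 (c'+1) = rr P t1 m := by
    have hex : ∃ l, ¬ rr P t1 l < rr P t1 m := ⟨m, lt_irrefl _⟩
    have hs := Nat.find_spec hex
    have hmin' : ∀ l, l < Nat.find hex → rr P t1 l < rr P t1 m := by
      intro l hl
      have := Nat.find_min hex hl
      exact not_not.1 this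
    set l0 := Nat.find hex with hl0
    have hl0pos : l0 ≠ 0 := by
      intro h; rw [h] at hs; exact hs h0
    have hl0m : l0 ≤ m := Nat.find_min' hex (lt_irrefl _)
    refine ⟨l0 - 1, by omega, hmin' _ (by omega), ?_⟩
    have : l0 - 1 + 1 = l0 := by omega
    rw [this]
    exact le_antisymm (rr_mono P t1 hl0m) (not_lt.1 hs)
  by_cases hA : ∃ u, u ≤ c' ∧ 1 ≤ u ∧ 2 ≤ (T.filter (fun x => x < rr P t1 u)).card ∧
      rr P t1 u ≤ t1 + P.Z (u-1) * P.L (u-1)
  · left
    obtain ⟨u, hu, hu1, hu2, hu3⟩ := hA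
    obtain ⟨t, ht, t', ht', htt⟩ := two_of_card hu2
    rw [Finset.mem_filter] at ht ht'
    obtain ⟨v, rfl⟩ : ∃ v, u = v + 1 := ⟨u - 1, by omega⟩
    simp only [Nat.add_sub_cancel] at hu3
    have hlt : rr P t1 (v+1) < rr P t1 m := lt_of_le_of_lt (rr_mono P t1 hu) hc'1
    have hqr : (t1 / P.L (v+1) + 1) * P.L (v+1) = rr P t1 (v+1) := rfl
    have hzone : ∀ x ∈ T, x < rr P t1 (v+1) → inZone P v (t1 / P.L (v+1) + 1) x := by
      intro x hx hx2
      left
      rw [hqr]
      have := hmin x hx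
      constructor <;> omega
    refine ⟨v, t1 / P.L (v+1) + 1, t, t', ht.1, ht'.1, htt, hzone t ht.1 ht.2,
      hzone t' ht'.1 ht'.2, ⟨t1, ht1, ?_⟩, ⟨t2, ht2, ?_⟩⟩
    · rw [hqr]; exact lt_rr P t1 (v+1)
    · refine le_trans ?_ hm
      have hd : P.L (v+1) ∣ rr P t1 m := (L_dvd P (by omega)).trans (dvd_rr P t1 m)
      have h1 : rr P (rr P t1 (v+1)) (v+1) ≤ rr P t1 m := rr_le_of P hd hlt
      refine le_trans ?_ h1
      rw [rr_eq, Nat.add_mul, hqr, one_mul]
      have : rr P t1 (v+1) ≤ ll P (rr P t1 (v+1)) (v+1) :=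
        le_ll_of P (dvd_rr P t1 (v+1)) le_rfl
      omega
  · right
    push Not at hA
    set v := Nat.findGreatest (fun v => v = 0 ∨ (T.filter (fun x => x < rr P t1 v)).card ≤ 1) c'
      with hv
    have hQv : v = 0 ∨ (T.filter (fun x => x < rr P t1 v)).card ≤ 1 :=
      Nat.findGreatest_spec (P := fun v => v = 0 ∨ (T.filter (fun x => x < rr P t1 v)).card ≤ 1)
        (Nat.zero_le c') (Or.inl rfl)
    have hvc : v ≤ c' := Nat.findGreatest_le c'
    have hgr : ∀ u, v < u → u ≤ c' → 2 ≤ (T.filter (fun x => x < rr P t1 u)).card := by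
      intro u h1 h2
      have := Nat.findGreatest_is_greatest (P := fun v => v = 0 ∨
        (T.filter (fun x => x < rr P t1 v)).card ≤ 1) h1 h2
      push Not at this
      omega
    have hcv : (T.filter (fun x => x < rr P t1 v)).card ≤ P.L 0 := by
      rcases hQv with h | h
      · rw [h]; exact hleaf
      · omega
    have hab : rr P t1 v < rr P t1 m := lt_of_le_of_lt (rr_mono P t1 hvc) hc'1
    refine ⟨c'+1, rr P t1 v, rr P t1 m, by omega, hab,
      (L_dvd P (Nat.zero_le _)).trans (dvd_rr P t1 v),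
      (L_dvd P (Nat.zero_le _)).trans (dvd_rr P t1 m), ⟨t1, ht1, lt_rr P t1 v⟩,
      ⟨t2, ht2, hm⟩, ?_, ?_, ?_⟩
    · intro x hx1 hx2
      rw [← hc'2] at hx2 hab
      have e1 := div_of_mem' P (t := t1) (i := c'+1) (x := x)
        (((ll_le P t1 _).trans (lt_rr P t1 v).le).trans hx1) hx2
      have e2 := div_of_mem' P (t := t1) (i := c'+1) (x := rr P t1 v)
        ((ll_le P t1 _).trans (lt_rr P t1 v).le) hab
      rw [e1, e2]
    · have hsub : T.filter (fun x => x < rr P t1 m) ⊆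
          T.filter (fun x => x < rr P t1 v) ∪
            T.filter (fun x => rr P t1 v ≤ x ∧ x < rr P t1 m) := by
        intro x hx
        rw [Finset.mem_union, Finset.mem_filter, Finset.mem_filter]
        rw [Finset.mem_filter] at hx
        rcases Nat.lt_or_ge x (rr P t1 v) with h | h
        · left; exact ⟨hx.1, h⟩
        · right; exact ⟨hx.1, h, hx.2⟩
      have := (Finset.card_le_card hsub).trans (Finset.card_union_le _ _)
      omega
    · intro x hx1 hx2 j hj
      rcases Nat.lt_or_ge x (rr P t1 (j+1)) with hxr | hxr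
      · -- x in the window of t1
        have hvj : v < j + 1 := by
          by_contra hcon
          have : rr P t1 (j+1) ≤ rr P t1 v := rr_mono P t1 (by omega)
          omega
        have hns := hA (j+1) (by omega) (by omega) (hgr (j+1) hvj (by omega))
        simp only [Nat.add_sub_cancel] at hns
        have hdj : P.L j ∣ rr P t1 (j+1) := (L_dvd P (Nat.le_succ j)).trans (dvd_rr P t1 (j+1))
        have hdy : P.L j ∣ rr P t1 (j+1) - P.Z j * P.L j :=
          Nat.dvd_sub hdj (Dvd.intro_left _ rfl)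
        have hvy : rr P t1 v ≤ rr P t1 (j+1) - P.Z j * P.L j :=
          rr_le_of P ((L_dvd P (by omega)).trans hdy) (by omega)
        refine ⟨rr P t1 (j+1) - P.Z j * P.L j, hdy, hvy, ?_, ?_⟩
        · have := rr_mono P t1 (i := j+1) (j := m) (by omega)
          omega
        · intro y h1 h2
          have hy1 : ll P t1 (j+1) ≤ y := by
            have := ll_le P t1 (j+1)
            have := lt_rr P t1 v
            omega
          have hy2 : y < rr P t1 (j+1) := by omega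
          rw [div_of_mem' P hy1 hy2]
          rw [div_of_mem' P _ hxr]
          have := ll_le P t1 (j+1)
          have := lt_rr P t1 v
          omega
      · apply full_window
        · -- a ≤ left end of window of x
          rcases Nat.lt_or_ge v (j+1) with h | h
          · exact (rr_mono P t1 (by omega)).trans (le_ll_of P (dvd_rr P t1 (j+1)) hxr)
          · exact le_ll_of P ((L_dvd P h).trans (dvd_rr P t1 v)) hx1
        · exact rr_le_of P ((L_dvd P (by omega)).trans (dvd_rr P t1 m)) hx2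

/-- RIGHT case -/
lemma geo_right {T : Finset ℕ} {t1 t2 m : ℕ} (ht1 : t1 ∈ T) (hmax : ∀ x ∈ T, x ≤ t2)
    (ht2 : t2 ∈ T) (hm : t1 < ll P t2 m)
    (hcard : P.k + P.L 0 ≤ (T.filter (fun x => ll P t2 m ≤ x)).card) :
    Zone P T ∨ Main P T := by
  classical
  have hk := P.hk
  have hL0 := P.hL0
  have hL2 := L0_two P
  -- tokens in the leaf
  have hleaf : (T.filter (fun x => ll P t2 0 ≤ x)).card ≤ P.L 0 := by
    apply card_leaf P (a := ll P t2 0)
    intro x hx
    rw [Finset.mem_filter] at hx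
    refine ⟨hx.2, ?_⟩
    rw [← rr_eq]; exact lt_of_le_of_lt (hmax x hx.1) (lt_rr P t2 0)
  have h0 : ll P t2 m < ll P t2 0 := by
    rcases Nat.lt_or_ge (ll P t2 m) (ll P t2 0) with h | h
    · exact h
    · exfalso
      have h' : ll P t2 m = ll P t2 0 := le_antisymm (ll_anti P t2 (Nat.zero_le m)) h
      rw [h'] at hcard
      omega
  -- c'
  obtain ⟨c', hc'm, hc'1, hc'2⟩ : ∃ c', c' < m ∧ ll P t2 m < ll P t2 c' ∧
      ll P t2 (c'+1) = ll P t2 m := by
    have hex : ∃ l, ¬ ll P t2 m < ll P t2 l := ⟨m, lt_irrefl _⟩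
    have hs := Nat.find_spec hex
    have hmin' : ∀ l, l < Nat.find hex → ll P t2 m < ll P t2 l := by
      intro l hl
      have := Nat.find_min hex hl
      exact not_not.1 this
    set l0 := Nat.find hex with hl0
    have hl0pos : l0 ≠ 0 := by
      intro h; rw [h] at hs; exact hs h0
    have hl0m : l0 ≤ m := Nat.find_min' hex (lt_irrefl _)
    refine ⟨l0 - 1, by omega, hmin' _ (by omega), ?_⟩
    have : l0 - 1 + 1 = l0 := by omega
    rw [this]
    exact le_antisymm (not_lt.1 hs) (ll_anti P t2 hl0m)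
  by_cases hA : ∃ u, u ≤ c' ∧ 1 ≤ u ∧ 2 ≤ (T.filter (fun x => ll P t2 u ≤ x)).card ∧
      t2 < ll P t2 u + P.Z (u-1) * P.L (u-1)
  · left
    obtain ⟨u, hu, hu1, hu2, hu3⟩ := hA
    obtain ⟨t, ht, t', ht', htt⟩ := two_of_card hu2
    rw [Finset.mem_filter] at ht ht'
    obtain ⟨v, rfl⟩ : ∃ v, u = v + 1 := ⟨u - 1, by omega⟩
    simp only [Nat.add_sub_cancel] at hu3
    have hlt : ll P t2 m < ll P t2 (v+1) := lt_of_lt_of_le hc'1 (ll_anti P t2 hu)
    have hpos : 0 < ll P t2 (v+1) := by omega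
    obtain ⟨q, hq⟩ : ∃ q, t2 / P.L (v+1) = q + 1 := by
      have : t2 / P.L (v+1) ≠ 0 := by
        intro h
        unfold ll at hpos
        rw [h] at hpos
        simp at hpos
      exact Nat.exists_eq_succ_of_ne_zero this
    have hqr : (q + 1) * P.L (v+1) = ll P t2 (v+1) := by unfold ll; rw [hq]
    have hzone : ∀ x ∈ T, ll P t2 (v+1) ≤ x → inZone P v q x := by
      intro x hx hx2
      right
      rw [hqr]
      have := hmax x hx
      constructor <;> omega
    have hqm : ll P t2 m ≤ q * P.L (v+1) := by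
      have hd : P.L (v+1) ∣ ll P t2 m := (L_dvd P (by omega)).trans (dvd_ll P t2 m)
      obtain ⟨s, hs⟩ := hd
      rw [hs] at hlt ⊢
      rw [← hqr, Nat.mul_comm (P.L (v+1)) s] at hlt
      have : s < q + 1 := lt_of_mul_lt_mul_right hlt (Nat.zero_le _)
      rw [Nat.mul_comm]
      exact Nat.mul_le_mul_right _ (by omega)
    refine ⟨v, q, t, t', ht.1, ht'.1, htt, hzone t ht.1 ht.2,
      hzone t' ht'.1 ht'.2, ⟨t1, ht1, ?_⟩, ⟨t2, ht2, ?_⟩⟩
    · omega
    · rw [hqr]; exact ll_le P t2 (v+1)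
  · right
    push Not at hA
    set v := Nat.findGreatest (fun v => v = 0 ∨ (T.filter (fun x => ll P t2 v ≤ x)).card ≤ 1) c'
      with hv
    have hQv : v = 0 ∨ (T.filter (fun x => ll P t2 v ≤ x)).card ≤ 1 :=
      Nat.findGreatest_spec (P := fun v => v = 0 ∨ (T.filter (fun x => ll P t2 v ≤ x)).card ≤ 1)
        (Nat.zero_le c') (Or.inl rfl)
    have hvc : v ≤ c' := Nat.findGreatest_le c'
    have hgr : ∀ u, v < u → u ≤ c' → 2 ≤ (T.filter (fun x => ll P t2 u ≤ x)).card := by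
      intro u h1 h2
      have := Nat.findGreatest_is_greatest (P := fun v => v = 0 ∨
        (T.filter (fun x => ll P t2 v ≤ x)).card ≤ 1) h1 h2
      push Not at this
      omega
    have hcv : (T.filter (fun x => ll P t2 v ≤ x)).card ≤ P.L 0 := by
      rcases hQv with h | h
      · rw [h]; exact hleaf
      · omega
    have hab : ll P t2 m < ll P t2 v := lt_of_lt_of_le hc'1 (ll_anti P t2 hvc)
    refine ⟨c'+1, ll P t2 m, ll P t2 v, by omega, hab,
      (L_dvd P (Nat.zero_le _)).trans (dvd_ll P t2 m),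
      (L_dvd P (Nat.zero_le _)).trans (dvd_ll P t2 v), ⟨t1, ht1, hm⟩,
      ⟨t2, ht2, ll_le P t2 v⟩, ?_, ?_, ?_⟩
    · intro x hx1 hx2
      rw [← hc'2] at hx1 hab
      have hx3 : x < rr P t2 (c'+1) :=
        lt_of_lt_of_le hx2 ((ll_le P t2 v).trans (lt_rr P t2 (c'+1)).le)
      have e1 := div_of_mem' P (t := t2) (i := c'+1) (x := x) hx1 hx3
      have e2 := div_of_mem' P (t := t2) (i := c'+1) (x := ll P t2 m) (by rw [hc'2])
        (by
          rw [← hc'2]
          exact lt_of_le_of_lt (ll_le P t2 (c'+1)) (lt_rr P t2 (c'+1)))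
      rw [e1, e2]
    · have hsub : T.filter (fun x => ll P t2 m ≤ x) ⊆
          T.filter (fun x => ll P t2 v ≤ x) ∪
            T.filter (fun x => ll P t2 m ≤ x ∧ x < ll P t2 v) := by
        intro x hx
        rw [Finset.mem_union, Finset.mem_filter, Finset.mem_filter]
        rw [Finset.mem_filter] at hx
        rcases Nat.lt_or_ge x (ll P t2 v) with h | h
        · right; exact ⟨hx.1, hx.2, h⟩
        · left; exact ⟨hx.1, h⟩
      have := (Finset.card_le_card hsub).trans (Finset.card_union_le _ _)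
      omega
    · intro x hx1 hx2 j hj
      rcases Nat.lt_or_ge x (ll P t2 (j+1)) with hxr | hxr
      · apply full_window
        · exact le_ll_of P ((L_dvd P (by omega)).trans (dvd_ll P t2 m)) hx1
        · rcases Nat.lt_or_ge v (j+1) with h | h
          · exact (rr_le_of P (dvd_ll P t2 (j+1)) hxr).trans (ll_anti P t2 (by omega))
          · exact rr_le_of P ((L_dvd P h).trans (dvd_ll P t2 v)) hx2
      · -- x in the window of t2
        have hvj : v < j + 1 := by
          by_contra hcon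
          have : ll P t2 v ≤ ll P t2 (j+1) := ll_anti P t2 (by omega)
          omega
        have hns := hA (j+1) (by omega) (by omega) (hgr (j+1) hvj (by omega))
        simp only [Nat.add_sub_cancel] at hns
        have hdj : P.L j ∣ ll P t2 (j+1) := (L_dvd P (Nat.le_succ j)).trans (dvd_ll P t2 (j+1))
        have hdy : P.L j ∣ ll P t2 (j+1) + P.Z j * P.L j :=
          Nat.dvd_add hdj (Dvd.intro_left _ rfl)
        have hvy : ll P t2 (j+1) + P.Z j * P.L j ≤ ll P t2 v :=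
          le_ll_of P ((L_dvd P (by omega)).trans hdy) hns
        refine ⟨ll P t2 (j+1), hdj, ll_anti P t2 (by omega), hvy, ?_⟩
        intro y h1 h2
        have hy2 : y < rr P t2 (j+1) := by
          have := lt_rr P t2 (j+1)
          omega
        rw [div_of_mem' P h1 hy2]
        rw [div_of_mem' P hxr]
        have := ll_le P t2 v
        have := lt_rr P t2 (j+1)
        omega

theorem geo (T : Finset ℕ) (hT : P.K ≤ T.card) :
    (∃ u q t t', t ∈ T ∧ t' ∈ T ∧ t ≠ t' ∧ inZone P u q t ∧ inZone P u q t' ∧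
      (∃ t1 ∈ T, t1 < q * P.L (u+1)) ∧ (∃ t2 ∈ T, (q+1) * P.L (u+1) ≤ t2)) ∨
    (∃ c a b, 1 ≤ c ∧ a < b ∧ P.L 0 ∣ a ∧ P.L 0 ∣ b ∧ (∃ t1 ∈ T, t1 < a) ∧
      (∃ t2 ∈ T, b ≤ t2) ∧ (∀ x, a ≤ x → x < b → x / P.L c = a / P.L c) ∧
      P.k ≤ (T.filter (fun x => a ≤ x ∧ x < b)).card ∧
      (∀ x, a ≤ x → x < b → ∀ j, j+1 < c → ∃ y0, P.L j ∣ y0 ∧ a ≤ y0 ∧
        y0 + P.Z j * P.L j ≤ b ∧
        ∀ y, y0 ≤ y → y < y0 + P.Z j * P.L j → y / P.L (j+1) = x / P.L (j+1))) := by
  classical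
  change Zone P T ∨ Main P T
  have hk := P.hk
  have hL0 := P.hL0
  have hKk := P.hKk
  have hne : T.Nonempty := by
    rw [← Finset.card_pos]; omega
  set t1 := T.min' hne with ht1d
  set t2 := T.max' hne with ht2d
  have ht1 : t1 ∈ T := Finset.min'_mem T hne
  have ht2 : t2 ∈ T := Finset.max'_mem T hne
  have hmin : ∀ x ∈ T, t1 ≤ x := fun x hx => Finset.min'_le T x hx
  have hmax : ∀ x ∈ T, x ≤ t2 := fun x hx => Finset.le_max' T x hx
  have hex : ∃ i, t1 / P.L i = t2 / P.L i := by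
    refine ⟨t2, ?_⟩
    rw [Nat.div_eq_of_lt (L_lt P t2),
      Nat.div_eq_of_lt (lt_of_le_of_lt (hmin t2 ht2) (L_lt P t2))]
  set C := Nat.find hex with hC
  have hCs : t1 / P.L C = t2 / P.L C := Nat.find_spec hex
  have hC0 : C ≠ 0 := by
    intro h
    rw [h] at hCs
    have : T.card ≤ P.L 0 := by
      apply card_leaf P (a := ll P t1 0)
      intro x hx
      refine ⟨(ll_le P t1 0).trans (hmin x hx), ?_⟩
      rw [← rr_eq]
      have e : rr P t1 0 = rr P t2 0 := by unfold rr; rw [hCs]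
      rw [e]
      exact lt_of_le_of_lt (hmax x hx) (lt_rr P t2 0)
    omega
  obtain ⟨m, hm⟩ : ∃ m, C = m + 1 := ⟨C - 1, by omega⟩
  have hmne : t1 / P.L m ≠ t2 / P.L m := Nat.find_min hex (by omega)
  have hdivlt : t1 / P.L m < t2 / P.L m :=
    lt_of_le_of_ne (Nat.div_le_div_right (hmin t2 ht2)) hmne
  have hrl : rr P t1 m ≤ ll P t2 m := by
    unfold rr ll
    exact Nat.mul_le_mul_right _ hdivlt
  have hsub : T ⊆ T.filter (fun x => x < rr P t1 m) ∪
      (T.filter (fun x => rr P t1 m ≤ x ∧ x < ll P t2 m) ∪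
        T.filter (fun x => ll P t2 m ≤ x)) := by
    intro x hx
    rw [Finset.mem_union, Finset.mem_union, Finset.mem_filter, Finset.mem_filter,
      Finset.mem_filter]
    rcases Nat.lt_or_ge x (rr P t1 m) with h | h
    · left; exact ⟨hx, h⟩
    · rcases Nat.lt_or_ge x (ll P t2 m) with h' | h'
      · right; left; exact ⟨hx, h, h'⟩
      · right; right; exact ⟨hx, h'⟩
  have hcard := (Finset.card_le_card hsub).trans
    ((Finset.card_union_le _ _).trans (Nat.add_le_add_left (Finset.card_union_le _ _) _))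
  rcases Nat.lt_or_ge (T.filter (fun x => x < rr P t1 m)).card (P.k + P.L 0) with h1 | h1
  · rcases Nat.lt_or_ge (T.filter (fun x => ll P t2 m ≤ x)).card (P.k + P.L 0) with h2 | h2
    · -- middle
      right
      have h3 : P.k ≤ (T.filter (fun x => rr P t1 m ≤ x ∧ x < ll P t2 m)).card := by omega
      have h4 : rr P t1 m < ll P t2 m := by
        have : 0 < (T.filter (fun x => rr P t1 m ≤ x ∧ x < ll P t2 m)).card := by omega
        obtain ⟨x, hx⟩ := Finset.card_pos.1 this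
        rw [Finset.mem_filter] at hx
        omega
      refine ⟨m+1, rr P t1 m, ll P t2 m, by omega, h4,
        (L_dvd P (Nat.zero_le _)).trans (dvd_rr P t1 m),
        (L_dvd P (Nat.zero_le _)).trans (dvd_ll P t2 m), ⟨t1, ht1, lt_rr P t1 m⟩,
        ⟨t2, ht2, ll_le P t2 m⟩, ?_, h3, ?_⟩
      · intro x hx1 hx2
        rw [hm] at hCs
        have hr : rr P t1 (m+1) = rr P t2 (m+1) := by unfold rr; rw [hCs]
        have hA : ∀ y, rr P t1 m ≤ y → y < ll P t2 m → y / P.L (m+1) = t1 / P.L (m+1) := by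
          intro y hy1 hy2
          apply div_of_mem'
          · exact ((ll_le P t1 _).trans (lt_rr P t1 m).le).trans hy1
          · rw [hr]
            exact lt_of_lt_of_le hy2 ((ll_le P t2 m).trans (lt_rr P t2 (m+1)).le)
        rw [hA x hx1 hx2, hA (rr P t1 m) le_rfl h4]
      · intro x hx1 hx2 j hj
        apply full_window
        · exact le_ll_of P ((L_dvd P (by omega)).trans (dvd_rr P t1 m)) hx1
        · exact rr_le_of P ((L_dvd P (by omega)).trans (dvd_ll P t2 m)) hx2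
    · exact geo_right P ht1 hmax ht2 (lt_of_lt_of_le (lt_rr P t1 m) hrl) h2
  · exact geo_left P ht1 hmin ht2 (hrl.trans (ll_le P t2 m)) h1

end Pool.Agent.Helper699.RK
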