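import Mathlib
import Pool.Agent.Helper806.RD.CP

set_option autoImplicit false

namespace Pool.Agent.Helper699.RK

open Pool.Agent.Helper806.RE

theorem getD_comp {α : Type} [Primcodable α] {f : α → List Bool} {g : α → ℕ}
    (hf : Computable f) (hg : Computable g) : Computable fun a => (f a).getD (g a) false :=
  (Primrec.list_getD false).to_comp.comp hf hg

def Qs (X : ℕ → List ℕ) (τ : List Bool) (s : ℕ) : Prop :=
  ∀ i < τ.length, τ.getD i false = true → i ∈ X s

theorem Qs_cp {α : Type} [Primcodable α] {X : ℕ → List ℕ} (hX : Computable X)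
    {f : α → List Bool} {g : α → ℕ} (hf : Computable f) (hg : Computable g) :
    ComputablePred fun a => Qs X (f a) (g a) := by
  unfold Qs
  refine cp_all_lt (p := fun a i => (f a).getD i false = true → i ∈ X (g a)) ?_
    (Computable.list_length.comp hf)
  refine cp_imp (cp_eq (getD_comp (hf.comp Computable.fst) Computable.snd)
    (Computable.const true)) ?_
  exact cp_mem Computable.snd (hX.comp (hg.comp Computable.fst))

/-- the list `l` enumerates the elements of `Y t` below `n` not in `Y s` -/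
def Cnt (Y : ℕ → List ℕ) (n s t j : ℕ) : Prop :=
  ∃ l : List ℕ, l.Nodup ∧ l.length = j ∧ (∀ i ∈ l, i < n ∧ i ∈ Y t ∧ i ∉ Y s) ∧
    (∀ i < n, i ∈ Y t → i ∈ Y s ∨ i ∈ l)

theorem Cnt_re {α : Type} [Primcodable α] {Y : ℕ → List ℕ} (hY : Computable Y)
    {n s t j : α → ℕ} (hn : Computable n) (hs : Computable s) (ht : Computable t)
    (hj : Computable j) : REPred fun a => Cnt Y (n a) (s a) (t a) (j a) := by
  unfold Cnt
  refine ex (p := fun a (l : List ℕ) => l.Nodup ∧ l.length = j a ∧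
    (∀ i ∈ l, i < n a ∧ i ∈ Y (t a) ∧ i ∉ Y (s a)) ∧
    (∀ i < n a, i ∈ Y (t a) → i ∈ Y (s a) ∨ i ∈ l)) ?_
  refine and (cp_nodup Computable.snd) (and ?_ (and ?_ ?_))
  · exact eq (Computable.list_length.comp Computable.snd) (hj.comp Computable.fst)
  · refine all_mem (p := fun (x : α × List ℕ) i => i < n x.1 ∧ i ∈ Y (t x.1) ∧ i ∉ Y (s x.1))
      ?_ Computable.snd
    have h1 : Computable fun x : (α × List ℕ) × ℕ => x.1.1 :=
      Computable.fst.comp Computable.fst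
    refine and (lt Computable.snd (hn.comp h1)) (and ?_ ?_)
    · exact (cp_mem Computable.snd (hY.comp (ht.comp h1))).to_re
    · exact (cp_not (cp_mem Computable.snd (hY.comp (hs.comp h1)))).to_re
  · refine all_lt (p := fun (x : α × List ℕ) i => i ∈ Y (t x.1) → i ∈ Y (s x.1) ∨ i ∈ x.2)
      ?_ (hn.comp Computable.fst)
    have h1 : Computable fun x : (α × List ℕ) × ℕ => x.1.1 :=
      Computable.fst.comp Computable.fst
    have h2 : Computable fun x : (α × List ℕ) × ℕ => x.1.2 :=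
      Computable.snd.comp Computable.fst
    refine (cp_imp (cp_mem Computable.snd (hY.comp (ht.comp h1))) (cp_or ?_ ?_)).to_re
    · exact cp_mem Computable.snd (hY.comp (hs.comp h1))
    · exact cp_mem Computable.snd h2

def Rel (X Y : ℕ → List ℕ) (a : List Bool × ℕ) (σ : List Bool) : Prop :=
  ∃ s t : ℕ, (Qs X a.1 s ∧ ∀ s' < s, ¬ Qs X a.1 s') ∧ s ≤ t ∧
    Cnt Y a.1.length s t a.2 ∧ σ.length = a.1.length ∧
    ∀ i < a.1.length, (σ.getD i false = true ↔ i ∈ Y t)

theorem Rel_re {X Y : ℕ → List ℕ} (hX : Computable X) (hY : Computable Y) :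
    REPred fun x : (List Bool × ℕ) × List Bool => Rel X Y x.1 x.2 := by
  unfold Rel
  refine exN (p := fun (x : (List Bool × ℕ) × List Bool) s => ∃ t : ℕ,
    (Qs X x.1.1 s ∧ ∀ s' < s, ¬ Qs X x.1.1 s') ∧ s ≤ t ∧
    Cnt Y x.1.1.length s t x.1.2 ∧ x.2.length = x.1.1.length ∧
    ∀ i < x.1.1.length, (x.2.getD i false = true ↔ i ∈ Y t)) ?_
  refine exN (p := fun (y : ((List Bool × ℕ) × List Bool) × ℕ) t =>
    (Qs X y.1.1.1 y.2 ∧ ∀ s' < y.2, ¬ Qs X y.1.1.1 s') ∧ y.2 ≤ t ∧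
    Cnt Y y.1.1.1.length y.2 t y.1.1.2 ∧ y.1.2.length = y.1.1.1.length ∧
    ∀ i < y.1.1.1.length, (y.1.2.getD i false = true ↔ i ∈ Y t)) ?_
  have c1 : Computable fun x : (((List Bool × ℕ) × List Bool) × ℕ) × ℕ => x.1.1.1.1 :=
    by fun_prop
  have c2 : Computable fun x : (((List Bool × ℕ) × List Bool) × ℕ) × ℕ => x.1.2 :=
    by fun_prop
  have c3 : Computable fun x : (((List Bool × ℕ) × List Bool) × ℕ) × ℕ => x.1.1.1.1.length :=
    by fun_prop
  refine and (and (Qs_cp hX c1 c2).to_re ?_) (and (le c2 (by fun_prop)) (and ?_ (and ?_ ?_)))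
  · refine (cp_all_lt (p := fun (x : (((List Bool × ℕ) × List Bool) × ℕ) × ℕ) s' =>
      ¬ Qs X x.1.1.1.1 s') (cp_not (Qs_cp hX (c1.comp Computable.fst) Computable.snd)) c2).to_re
  · exact Cnt_re hY c3 c2 Computable.snd (by fun_prop)
  · exact eq (by fun_prop) (by fun_prop)
  · refine (cp_all_lt (p := fun (x : (((List Bool × ℕ) × List Bool) × ℕ) × ℕ) i =>
      (x.1.1.2.getD i false = true ↔ i ∈ Y x.2)) ?_ c3).to_re
    refine cp_iff (cp_eq (getD_comp (by fun_prop) Computable.snd) (Computable.const true)) ?_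
    exact cp_mem Computable.snd (hY.comp (by fun_prop))

theorem exists_stage {Y : ℕ → List ℕ} (hYm : ∀ s t, s ≤ t → ∀ i ∈ Y s, i ∈ Y t) (n s0 : ℕ) :
    ∃ t, s0 ≤ t ∧ ∀ i < n, (∃ t', i ∈ Y t') → i ∈ Y t := by
  induction n with
  | zero => exact ⟨s0, le_rfl, fun i hi => absurd hi (Nat.not_lt_zero i)⟩
  | succ n ih =>
    obtain ⟨t, ht, h⟩ := ih
    by_cases hn : ∃ t', n ∈ Y t'
    · obtain ⟨t', ht'⟩ := hn
      refine ⟨max t t', ht.trans (le_max_left _ _), fun i hi hi2 => ?_⟩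
      rcases Nat.lt_succ_iff_lt_or_eq.1 hi with h1 | h1
      · exact hYm t _ (le_max_left _ _) i (h i h1 hi2)
      · rw [h1]; exact hYm t' _ (le_max_right _ _) n ht'
    · refine ⟨t, ht, fun i hi hi2 => ?_⟩
      rcases Nat.lt_succ_iff_lt_or_eq.1 hi with h1 | h1
      · exact h i h1 hi2
      · rw [h1] at hi2; exact absurd hi2 hn

theorem guess {X Y : ℕ → List ℕ} (hX : Computable X) (hY : Computable Y)
    (hXm : ∀ s t, s ≤ t → ∀ i ∈ X s, i ∈ X t) (hYm : ∀ s t, s ≤ t → ∀ i ∈ Y s, i ∈ Y t)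
    (c : ℕ)
    (h : ∀ n s, (∀ i < n, (∃ t, i ∈ X t) → i ∈ X s) → ∀ t, s ≤ t →
      ((List.range n).filter (fun i => decide (i ∈ Y t) && !decide (i ∈ Y s))).length ≤ c) :
    ∃ φ : List Bool × ℕ →. List Bool, Partrec φ ∧ ∃ c : ℕ, ∀ n : ℕ, ∀ τ : List Bool,
      τ.length = n → (∀ i < n, (τ.getD i false = true ↔ ∃ t, i ∈ X t)) →
      ∃ j ≤ c, ∃ σ ∈ φ (τ, j), σ.length = n ∧
        ∀ i < n, (σ.getD i false = true ↔ ∃ t, i ∈ Y t) := by
  classical
  obtain ⟨φ, hφ, hdom, hval⟩ := uniformize (r := fun a σ => Rel X Y a σ) (Rel_re hX hY)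
  refine ⟨φ, hφ, c, ?_⟩
  rintro n τ rfl hτ
  -- least stage
  have hex : ∃ s, Qs X τ s := by
    obtain ⟨s, -, hs⟩ := exists_stage hXm τ.length 0
    exact ⟨s, fun i hi h1 => hs i hi ((hτ i hi).1 h1)⟩
  set s0 := Nat.find hex with hs0
  have hQ : Qs X τ s0 := Nat.find_spec hex
  have hQm : ∀ s' < s0, ¬ Qs X τ s' := fun s' hs' => Nat.find_min hex hs'
  have hful : ∀ i < τ.length, (∃ t, i ∈ X t) → i ∈ X s0 :=
    fun i hi h1 => hQ i hi ((hτ i hi).2 h1)
  obtain ⟨t1, ht1, hfin⟩ := exists_stage hYm τ.length s0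
  set F : ℕ → List ℕ := fun t =>
    (List.range τ.length).filter (fun i => decide (i ∈ Y t) && !decide (i ∈ Y s0)) with hF
  have hFmem : ∀ t i, i ∈ F t ↔ i < τ.length ∧ i ∈ Y t ∧ i ∉ Y s0 := by
    intro t i
    simp [hF, List.mem_filter]
  have hFnd : ∀ t, (F t).Nodup := fun t => (List.nodup_range).filter _
  have hCnt : ∀ t j, Cnt Y τ.length s0 t j → (F t).length = j := by
    rintro t j ⟨l, hl1, hl2, hl3, hl4⟩
    have hp : (F t).Perm l := by
      rw [List.perm_ext_iff_of_nodup (hFnd t) hl1]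
      intro i
      rw [hFmem]
      constructor
      · rintro ⟨h1, h2, h3⟩
        exact (hl4 i h1 h2).resolve_left h3
      · exact hl3 i
    rw [hp.length_eq, hl2]
  have hrel : Rel X Y (τ, (F t1).length)
      ((List.range τ.length).map (fun i => decide (i ∈ Y t1))) := by
    refine ⟨s0, t1, ⟨hQ, hQm⟩, ht1, ⟨F t1, hFnd t1, rfl, fun i hi => (hFmem t1 i).1 hi, ?_⟩,
      by simp, ?_⟩
    · intro i hi h1
      by_cases h2 : i ∈ Y s0
      · exact Or.inl h2
      · exact Or.inr ((hFmem t1 i).2 ⟨hi, h1, h2⟩)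
    · intro i hi
      have hi' : i < τ.length := hi
      rw [List.getD_eq_getElem?_getD, List.getElem?_map, List.getElem?_range hi']
      simp
  refine ⟨(F t1).length, h τ.length s0 hful t1 ht1, ?_⟩
  have hd : (φ (τ, (F t1).length)).Dom := (hdom _).2 ⟨_, hrel⟩
  have hm := Part.get_mem hd
  refine ⟨_, hm, ?_⟩
  obtain ⟨s, t, ⟨hs1, hs2⟩, hst, hc1, hlen, hbits⟩ := hval _ _ hm
  have hss : s = s0 := by
    rcases Nat.lt_trichotomy s s0 with h1 | h1 | h1
    · exact absurd hs1 (hQm s h1)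
    · exact h1
    · exact absurd hQ (hs2 s0 h1)
  subst hss
  have hlt := hCnt t _ hc1
  refine ⟨hlen, fun i hi => ?_⟩
  rw [hbits i hi]
  refine ⟨fun h1 => ⟨t, h1⟩, fun h1 => ?_⟩
  by_cases h2 : i ∈ Y s0
  · exact hYm s0 t hst i h2
  -- the two lists agree
  have hsub : (F t).toFinset ⊆ (F t1).toFinset := by
    intro k hk
    rw [List.mem_toFinset, hFmem] at hk ⊢
    exact ⟨hk.1, hfin k hk.1 ⟨t, hk.2.1⟩, hk.2.2⟩
  have hcard : (F t1).toFinset.card ≤ (F t).toFinset.card := by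
    rw [List.toFinset_card_of_nodup (hFnd _), List.toFinset_card_of_nodup (hFnd _)]
    exact hlt.ge
  have heq := Finset.eq_of_subset_of_card_le hsub hcard
  have : i ∈ (F t1).toFinset := by
    rw [List.mem_toFinset, hFmem]
    exact ⟨hi, hfin i hi h1, h2⟩
  rw [← heq, List.mem_toFinset, hFmem] at this
  exact this.2.1

end Pool.Agent.Helper699.RK
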